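import Pool.Agent.R83.RelSat

set_option autoImplicit false

/-!
# Saturation numbers of even cycles in complete bipartite graphs

The question is whether `sat(K_{n₁,n₂}, C_{2l}) = n₁ + n₂ + l² - 3 l + 1` for all `l ≥ 4` and
`n₁, n₂ ≥ l + 2`. For `l = 4` this number is `n₁ + n₂ + 5`. Here a `C_8`-saturated subgraph of `K_{n₁,n₂}` with
`n₁ + n₂ + 3` edges is given for all `n₁, n₂ ≥ 6`: a core with `15` edges on `6 + 6` vertices, all the other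
vertices being leaves attached to one left and one right vertex of the core.
-/

namespace Pool.Agent.Results.MP_7875f2_co.EightCycles

open SimpleGraph Pool.Agent.R83.RelSat

/-- For all `n₁, n₂ ≥ 6`, `sat(K_{n₁,n₂}, C_8) ≤ n₁ + n₂ + 3`. So the conjectured formula, which gives
`n₁ + n₂ + 5` for `l = 4`, fails for `l = 4` and all `n₁, n₂ ≥ 6`. -/
theorem result :
    (∀ n₁ n₂ : ℕ, 6 ≤ n₁ → 6 ≤ n₂ →
      relSat (completeBipartiteGraph (Fin n₁) (Fin n₂)) (cycleGraph 8) ≤ n₁ + n₂ + 3) ∧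
    ¬ (∀ l n₁ n₂ : ℕ, 4 ≤ l → l + 2 ≤ n₁ → l + 2 ≤ n₂ →
      (relSat (completeBipartiteGraph (Fin n₁) (Fin n₂)) (cycleGraph (2 * l)) : ℤ) =
        n₁ + n₂ + l ^ 2 - 3 * l + 1) := by
  have h1 : ∀ n₁ n₂ : ℕ, 6 ≤ n₁ → 6 ≤ n₂ →
      relSat (completeBipartiteGraph (Fin n₁) (Fin n₂)) (cycleGraph 8) ≤ n₁ + n₂ + 3 := by
    intro n₁ n₂ h₁ h₂
    have h : (HH n₁ n₂).edgeSet.ncard ∈ {m | ∃ H : SimpleGraph (Fin n₁ ⊕ Fin n₂),
        IsRelSat (completeBipartiteGraph (Fin n₁) (Fin n₂)) (cycleGraph 8) H ∧ H.edgeSet.ncard = m} :=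
      ⟨HH n₁ n₂, HH_isRelSat h₁ h₂, rfl⟩
    exact (Nat.sInf_le h).trans (HH_edges h₁ h₂)
  refine ⟨h1, fun H => ?_⟩
  have h2 := H 4 6 6 le_rfl (by norm_num) (by norm_num)
  have h3 := h1 6 6 le_rfl le_rfl
  change (relSat (completeBipartiteGraph (Fin 6) (Fin 6)) (cycleGraph 8) : ℤ) = _ at h2
  rw [show (((6 : ℕ) : ℤ) + ((6 : ℕ) : ℤ) + ((4 : ℕ) : ℤ) ^ 2 - 3 * ((4 : ℕ) : ℤ) + 1) = 17 by norm_num] at h2
  omega

end Pool.Agent.Results.MP_7875f2_co.EightCycles
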